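import Pool.Agent.Helper43.GD.St

/-! Project GD, module KC. -/

set_option autoImplicit false

namespace Pool.Agent.Helper78.GD

open Pool.Agent.Helper43.GD

section

variable {G : Type} [Group G]

theorem cj_succ (a t : G) (n : ℕ) : cj a t ((n : ℤ) + 1) = t⁻¹ * cj a t n * t := by
  unfold cj
  group

theorem cj_zero' (a t : G) : cj a t 0 = a := by
  unfold cj
  simp

theorem kc_comm {a t K : G} (h0 : a * K = K * a) (ht : t⁻¹ * K * t = K⁻¹) (n : ℕ) :
    Commute (cj a t n) K := by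
  induction n with
  | zero => rw [Nat.cast_zero, cj_zero']; exact h0
  | succ n ih =>
    rw [Nat.cast_succ, cj_succ]
    have h1 : (t⁻¹ * cj a t n * t) * K⁻¹ = K⁻¹ * (t⁻¹ * cj a t n * t) := by
      rw [← ht]
      calc t⁻¹ * cj a t n * t * (t⁻¹ * K * t) = t⁻¹ * (cj a t n * K) * t := by group
        _ = t⁻¹ * (K * cj a t n) * t := by rw [ih.eq]
        _ = _ := by group
    have h2 : Commute (t⁻¹ * cj a t n * t) K⁻¹ := h1
    exact Commute.inv_right_iff.1 h2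

theorem kc_rec {a t : G} (h : a = cj a t 1 * cj a t 2) (n : ℕ) :
    cj a t n = cj a t ((n : ℤ) + 1) * cj a t ((n : ℤ) + 2) := by
  have e : t ^ (-(n : ℤ)) * a * t ^ (n : ℤ) =
      t ^ (-(n : ℤ)) * (cj a t 1 * cj a t 2) * t ^ (n : ℤ) := by rw [← h]
  calc cj a t n = t ^ (-(n : ℤ)) * a * t ^ (n : ℤ) := rfl
    _ = t ^ (-(n : ℤ)) * (cj a t 1 * cj a t 2) * t ^ (n : ℤ) := e
    _ = _ := by
      unfold cj
      group

/-- the exponents -/
def kB (n : ℕ) : ℤ := (-1) ^ (n + 1) * (Nat.fib n : ℤ)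

theorem kB_zero : kB 0 = 0 := by simp [kB]
theorem kB_one : kB 1 = 1 := by simp [kB]
theorem kB_rec (n : ℕ) : kB (n + 2) = kB n - kB (n + 1) := by
  unfold kB
  rw [Nat.fib_add_two]
  push_cast
  ring

theorem kc_main {a t K : G} (h : a = cj a t 1 * cj a t 2) (hc : a * K = K * a)
    (hK : K = a⁻¹ * (cj a t 1)⁻¹ * a * cj a t 1) (ht : t⁻¹ * K * t = K⁻¹) (n : ℕ) :
    (cj a t n)⁻¹ * a * cj a t n = a * K ^ (kB n) ∧
      (cj a t ((n : ℤ) + 1))⁻¹ * a * cj a t ((n : ℤ) + 1) = a * K ^ (kB (n + 1)) := by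
  induction n with
  | zero =>
    constructor
    · rw [Nat.cast_zero, cj_zero', kB_zero]; group
    · rw [Nat.cast_zero, zero_add, zero_add, kB_one, zpow_one]
      conv_rhs => rw [hK]
      group
  | succ n ih =>
    obtain ⟨h1, h2⟩ := ih
    refine ⟨by rw [Nat.cast_succ]; exact h2, ?_⟩
    have hr := kc_rec h n
    have e : cj a t (((n + 1 : ℕ) : ℤ) + 1) = (cj a t ((n : ℤ) + 1))⁻¹ * cj a t n := by
      have : (((n + 1 : ℕ) : ℤ) + 1) = (n : ℤ) + 2 := by push_cast; ring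
      rw [this, hr]; group
    rw [e, kB_rec]
    have c0 : Commute (cj a t n) K := kc_comm hc ht n
    have c1 : Commute (cj a t ((n : ℤ) + 1)) K := by
      have := kc_comm hc ht (n + 1)
      rwa [Nat.cast_succ] at this
    have c1' : Commute (cj a t ((n : ℤ) + 1)) (K ^ (kB (n + 1))) := c1.zpow_right _
    have c0' : Commute (cj a t n) (K ^ (-kB (n + 1))) := c0.zpow_right _
    generalize cj a t ((n : ℤ) + 1) = y at *
    generalize cj a t n = x at *
    have h3 : y * a * y⁻¹ = a * K ^ (-kB (n + 1)) := by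
      have h4 : a = y * (a * K ^ (kB (n + 1))) * y⁻¹ := by rw [← h2]; group
      have h5 : a = (y * a * y⁻¹) * K ^ (kB (n + 1)) := by
        calc a = y * (a * K ^ (kB (n + 1))) * y⁻¹ := h4
          _ = (y * a * y⁻¹) * (y * K ^ (kB (n + 1)) * y⁻¹) := by group
          _ = _ := by rw [c1'.eq]; group
      rw [zpow_neg, eq_mul_inv_iff_mul_eq]
      exact h5.symm
    calc (y⁻¹ * x)⁻¹ * a * (y⁻¹ * x) = x⁻¹ * (y * a * y⁻¹) * x := by group
      _ = x⁻¹ * (a * K ^ (-kB (n + 1))) * x := by rw [h3]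
      _ = (x⁻¹ * a * x) * (x⁻¹ * (K ^ (-kB (n + 1)) * x)) := by group
      _ = (a * K ^ (kB n)) * (x⁻¹ * (x * K ^ (-kB (n + 1)))) := by rw [h1, c0'.eq]
      _ = a * (K ^ (kB n) * K ^ (-kB (n + 1))) := by group
      _ = _ := by rw [← zpow_add, sub_eq_add_neg]

end

theorem hKC (hKB : StKB) : StKC := by
  intro G _ M a w t hR hM
  obtain ⟨K, hK⟩ : ∃ K : G, K = a⁻¹ * (cj a t 1)⁻¹ * a * cj a t 1 := ⟨_, rfl⟩
  obtain ⟨h1, -, h3, h4, -⟩ := hKB G M a w t K hR hK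
  have hm := (kc_main hR.2.2 h1 hK h3 M).1
  have e : cj a t M = a⁻¹ * K⁻¹ := by rw [← h4]; group
  have hc : K⁻¹ * a = a * K⁻¹ := by
    rw [inv_mul_eq_iff_eq_mul, ← mul_assoc, ← h1]; group
  have e2 : (cj a t M)⁻¹ * a * cj a t M = a := by
    rw [e]
    calc (a⁻¹ * K⁻¹)⁻¹ * a * (a⁻¹ * K⁻¹) = K * (a * K⁻¹) := by group
      _ = K * (K⁻¹ * a) := by rw [hc]
      _ = a := by group
  rw [e2] at hm
  have hz : K ^ (kB M) = 1 := by
    have : a * 1 = a * K ^ (kB M) := by rw [mul_one]; exact hm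
    exact (mul_left_cancel this).symm
  refine ⟨Nat.fib M, Nat.fib_pos.2 hM, ?_⟩
  rw [← hK]
  unfold kB at hz
  rcases neg_one_pow_eq_or ℤ (M + 1) with h | h
  · rw [h, one_mul, zpow_natCast] at hz
    exact hz
  · rw [h, neg_one_mul, zpow_neg, zpow_natCast, inv_eq_one] at hz
    exact hz

end Pool.Agent.Helper78.GD
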