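import Pool.Agent.Helper43.GD.St

/-! Project GD, module P1. -/

set_option autoImplicit false

namespace Pool.Agent.Helper78.GD

open Pool.Agent.Helper43.GD

theorem hP1 (hRR : StRR) (hST : StST) : StP1 := by
  intro L A _ _ Q u σ v hσ hv hvu
  have hnv : -v ∈ Q.U := by
    have := Q.U.mul_mem Q.neg hv
    rwa [neg_one_mul] at this
  have hσi : σ⁻¹ ∈ Q.U := Q.U.inv_mem hσ
  have e1 := σ.mul_inv
  have e2 := u.mul_inv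
  have hd : ((σ⁻¹ : Lˣ) : L) =
      1 + ((-v : Lˣ) : L) * (((σ⁻¹ : Lˣ) : L) * ((u⁻¹ : Lˣ) : L)) := by
    rw [Units.val_neg, hvu]
    linear_combination (-1 + ((σ : L) - 1) * ((σ⁻¹ : Lˣ) : L)) * e2 -
      (-1 + ((σ : L) - 1) * ((σ⁻¹ : Lˣ) : L)) * e2 + (1 : L) * e1 +
      (((σ : L) - 1) * ((σ⁻¹ : Lˣ) : L)) * e2
  have hr := hRR L A Q (-v) σ⁻¹ (((σ⁻¹ : Lˣ) : L) * ((u⁻¹ : Lˣ) : L)) hnv hσi hd
  rw [inv_inv, Q.h_inv hσ, ← mul_assoc (σ : L), Units.mul_inv, one_mul] at hr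
  rw [hST L A Q u σ hσ]
  have ea : (1 - (σ : L)) * u = ((-v : Lˣ) : L) := by
    rw [Units.val_neg, hvu]; ring
  rw [ea, hr]
  have hE := Q.h_E hσi ((σ : L) * ((-v : Lˣ) : L))
  have hE2 := Q.h_E hσi (((σ⁻¹ : Lˣ) : L) * ((σ : L) * ((-v : Lˣ) : L)))
  rw [← hE, Q.h_inv hσ] at hE2
  have ee : ((σ⁻¹ : Lˣ) : L) * (((σ⁻¹ : Lˣ) : L) * ((σ : L) * ((-v : Lˣ) : L))) =
      ((-v : Lˣ) : L) * ((σ⁻¹ : Lˣ) : L) := by
    linear_combination (((σ⁻¹ : Lˣ) : L) * ((-v : Lˣ) : L)) * e1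
  rw [ee] at hE2
  rw [← hE2]
  group

end Pool.Agent.Helper78.GD
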